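import Mathlib
import Pool.Agent.Helper92.OWN.PL

/-!
# Backward invariant algebraic subsets of projective space are unions of linear subspaces

Let f be the self map of complex projective k-space given by homogeneous polynomials F_0, ..., F_k
of degree d > 1 whose only common zero is the origin. If E is the zero set of a set of homogeneous
polynomials and f⁻¹(E) ⊆ E, then E is a finite union of linear subspaces.
-/

set_option autoImplicit false

namespace Pool.Agent.Results.MP_17e24e_ag.ProjectiveLinearity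

open scoped LinearAlgebra.Projectivization
open Pool.Agent.Helper92.OWN

lemma hom_smul {σ : Type} [Finite σ] {p : MvPolynomial σ ℂ} {n : ℕ} (hp : p.IsHomogeneous n)
    (c : ℂ) (v : σ → ℂ) :
    MvPolynomial.eval (c • v) p = c ^ n * MvPolynomial.eval v p := by
  rw [MvPolynomial.eval_eq, MvPolynomial.eval_eq, Finset.mul_sum]
  refine Finset.sum_congr rfl fun m hm => ?_
  have h1 : ∑ i ∈ m.support, m i = n := by
    have h := hp (MvPolynomial.mem_support_iff.1 hm)
    rw [Finsupp.weight_apply, Finsupp.sum] at h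
    simpa using h
  have h2 : ∏ i ∈ m.support, (c • v) i ^ m i = c ^ n * ∏ i ∈ m.support, v i ^ m i := by
    rw [← h1, ← Finset.prod_pow_eq_pow_sum, ← Finset.prod_mul_distrib]
    refine Finset.prod_congr rfl fun i _ => ?_
    rw [Pi.smul_apply, smul_eq_mul, mul_pow]
  rw [h2]
  ring

theorem result (k d : ℕ) (hd : 1 < d)
    (F : Fin (k + 1) → MvPolynomial (Fin (k + 1)) ℂ) (hF : ∀ i, (F i).IsHomogeneous d)
    (hnd : ∀ v : Fin (k + 1) → ℂ, (∀ i, MvPolynomial.eval v (F i) = 0) → v = 0)
    (f : ℙ ℂ (Fin (k + 1) → ℂ) → ℙ ℂ (Fin (k + 1) → ℂ))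
    (hf : ∀ (v : Fin (k + 1) → ℂ) (hv : v ≠ 0) (hw : (fun i => MvPolynomial.eval v (F i)) ≠ 0),
      f (Projectivization.mk ℂ v hv) =
        Projectivization.mk ℂ (fun i => MvPolynomial.eval v (F i)) hw)
    (S : Set (MvPolynomial (Fin (k + 1)) ℂ)) (hS : ∀ p ∈ S, ∃ n : ℕ, p.IsHomogeneous n)
    (E : Set (ℙ ℂ (Fin (k + 1) → ℂ)))
    (hE : E = {x | ∀ p ∈ S, MvPolynomial.eval x.rep p = 0})
    (hinv : f ⁻¹' E ⊆ E) :
    ∃ 𝓦 : Set (Submodule ℂ (Fin (k + 1) → ℂ)), 𝓦.Finite ∧
      E = ⋃ W ∈ 𝓦, (W.projectivization : Set (ℙ ℂ (Fin (k + 1) → ℂ))) := by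
  classical
  have hND : TI.NonDeg d F := ⟨hd, hF, hnd⟩
  -- membership in E in coordinates
  have hmem : ∀ (v : Fin (k + 1) → ℂ) (hv : v ≠ 0),
      Projectivization.mk ℂ v hv ∈ E ↔ ∀ p ∈ S, MvPolynomial.eval v p = 0 := by
    intro v hv
    rw [hE]
    obtain ⟨a, ha⟩ := Projectivization.exists_smul_eq_mk_rep ℂ v hv
    constructor
    · intro h p hp
      obtain ⟨n, hn⟩ := hS p hp
      have h1 : MvPolynomial.eval (Projectivization.mk ℂ v hv).rep p = 0 := h p hp
      rw [← ha, Units.smul_def, hom_smul hn] at h1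
      exact (mul_eq_zero.1 h1).resolve_left (pow_ne_zero n a.ne_zero)
    · intro h p hp
      obtain ⟨n, hn⟩ := hS p hp
      rw [← ha, Units.smul_def, hom_smul hn, h p hp, mul_zero]
  have hw0 : ∀ v : Fin (k + 1) → ℂ, v ≠ 0 → (fun i => MvPolynomial.eval v (F i)) ≠ 0 := by
    intro v hv h0
    exact hv (hnd v fun i => congrFun h0 i)
  have hF0 : mp F 0 = 0 := by
    funext i
    have h1 : MvPolynomial.eval (0 : Fin (k + 1) → ℂ) (F i) = 0 := by
      have h2 := hom_smul (hF i) 0 0
      rwa [smul_zero, zero_pow (by omega), zero_mul] at h2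
    exact h1
  -- backward invariance in coordinates
  have hback : ∀ v : Fin (k + 1) → ℂ, (∀ p ∈ S, MvPolynomial.eval (mp F v) p = 0) →
      ∀ p ∈ S, MvPolynomial.eval v p = 0 := by
    intro v hv
    by_cases h0 : v = 0
    · rw [h0, hF0] at hv
      rw [h0]
      exact hv
    · have h1 : f (Projectivization.mk ℂ v h0) ∈ E := by
        rw [hf v h0 (hw0 v h0), hmem]
        exact hv
      exact (hmem v h0).1 (hinv h1)
  have hforw := back hND S hback
  -- a finite subfamily with the same zeros
  have hfg : (Submodule.span (MvPolynomial (Fin (k + 1)) ℂ) S).FG :=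
    IsNoetherian.noetherian _
  obtain ⟨S', hS'S, hspan⟩ := (Submodule.fg_span_iff_fg_span_finset_subset S).1 hfg
  have hz : ∀ v : Fin (k + 1) → ℂ, (∀ p ∈ S', MvPolynomial.eval v p = 0) ↔
      ∀ p ∈ S, MvPolynomial.eval v p = 0 := by
    intro v
    constructor
    · intro h p hp
      have h1 : p ∈ Submodule.span (MvPolynomial (Fin (k + 1)) ℂ)
          (S' : Set (MvPolynomial (Fin (k + 1)) ℂ)) := by
        rw [← hspan]
        exact Submodule.subset_span hp
      have h2 : Submodule.span (MvPolynomial (Fin (k + 1)) ℂ)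
          (S' : Set (MvPolynomial (Fin (k + 1)) ℂ)) ≤
          RingHom.ker (MvPolynomial.eval v) := by
        rw [Submodule.span_le]
        intro q hq
        exact h q hq
      exact h2 h1
    · intro h p hp
      exact h p (hS'S hp)
  obtain ⟨m, W, hW⟩ := TI.main k d hd F hF hnd S' (fun p hp => hS p (hS'S hp)) (fun v hv => by
    rw [hz v]
    have h1 := hz (mp F v)
    constructor
    · intro h
      exact h1.2 (hforw v h)
    · intro h
      exact hback v (h1.1 h))
  refine ⟨Set.range W, Set.finite_range W, ?_⟩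
  ext x
  induction x using Projectivization.ind with
  | h v hv =>
    rw [hmem, ← hz, hW v hv]
    simp only [Set.mem_iUnion, Set.mem_range, exists_prop, exists_exists_eq_and, SetLike.mem_coe,
      Submodule.mk_mem_projectivization_iff]

end Pool.Agent.Results.MP_17e24e_ag.ProjectiveLinearity
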